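import Mathlib
import Pool.Agent.Helper35_QL3.Stmt
import Pool.Agent.Helper9_QL.Unif

/-!
Modules disc, plEq, struct.
-/

set_option autoImplicit false
open Matrix Polynomial MeasureTheory Set Filter Topology

namespace QL3
open QL QL.H9

/-- integer vectors close to a given one are equal to it -/
theorem int_tendsto {κ : Type} [Finite κ] {R : ℕ → κ → ℤ} {S : κ → ℤ}
    (h : Tendsto (fun i => iv (R i)) atTop (𝓝 (iv S))) : ∀ᶠ i in atTop, R i = S := by
  have h1 : ∀ c, ∀ᶠ i in atTop, R i c = S c := by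
    intro c
    have h2 : Tendsto (fun i => ((R i c : ℤ) : ℝ)) atTop (𝓝 ((S c : ℤ) : ℝ)) :=
      (tendsto_pi_nhds.1 h) c
    have h3 := (Metric.tendsto_nhds.1 h2) 1 one_pos
    filter_upwards [h3] with i hi
    rw [Real.dist_eq, ← Int.cast_sub] at hi
    have h4 : |R i c - S c| < 1 := by exact_mod_cast hi
    have h5 := Int.abs_lt_one_iff.1 h4
    omega
  have h2 := Filter.eventually_all.2 h1
  filter_upwards [h2] with i hi
  funext c
  exact hi c

theorem disc : discStatement := by
  intro ι _ _ x hx b k R g u γ hg hu hγ hrel hlim hfix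
  -- `g_i⁻¹ = x γ_i⁻¹ x⁻¹ u_i⁻¹`
  have key : ∀ i, ∃ R' : (Fin k → ι) → ℤ,
      ract b k (g i)⁻¹ (ract b k x (iv R)) = ract b k x (iv R') := by
    intro i
    obtain ⟨R', hR'⟩ := ract_gam' b k (γ i)⁻¹ (gam_inv' (hγ i)) R
    refine ⟨R', ?_⟩
    have h1 : (g i)⁻¹ = x * ((γ i)⁻¹ * (x⁻¹ * (u i)⁻¹)) := by
      have h2 : g i = u i * x * γ i * x⁻¹ := by
        rw [← hrel, Matrix.mul_assoc, mul_inv_one hx, Matrix.mul_one]
      have h3 : (x * ((γ i)⁻¹ * (x⁻¹ * (u i)⁻¹))) * g i = 1 := by
        rw [h2]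
        have e1 : (u i)⁻¹ * u i = 1 := inv_mul_one (hu i)
        have e2 : x⁻¹ * x = 1 := inv_mul_one hx
        have e3 : (γ i)⁻¹ * γ i = 1 := inv_mul_one (hγ i).1
        have e4 : x * x⁻¹ = 1 := mul_inv_one hx
        calc x * ((γ i)⁻¹ * (x⁻¹ * (u i)⁻¹)) * (u i * x * γ i * x⁻¹)
            = x * ((γ i)⁻¹ * (x⁻¹ * ((u i)⁻¹ * u i) * x) * γ i) * x⁻¹ := by
              simp only [Matrix.mul_assoc]
          _ = 1 := by rw [e1, Matrix.mul_one, e2, Matrix.mul_one, e3, Matrix.mul_one, e4]
      exact Matrix.inv_eq_left_inv h3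
    have hd1 : (x⁻¹ * (u i)⁻¹).det = 1 := by
      rw [Matrix.det_mul, det_inv_one hx, det_inv_one (hu i), one_mul]
    have hd2 : ((γ i)⁻¹ * (x⁻¹ * (u i)⁻¹)).det = 1 := by
      rw [Matrix.det_mul, hd1, det_inv_one (hγ i).1, one_mul]
    rw [h1, ract_mul' b k _ _ hx hd2, ract_mul' b k _ _ (det_inv_one (hγ i).1) hd1,
      ract_mul' b k _ _ (det_inv_one hx) (det_inv_one (hu i))]
    have h4 : ract b k (u i)⁻¹ (ract b k x (iv R)) = ract b k x (iv R) := by
      conv_lhs => rw [← hfix i]
      exact ract_inv_ract b k (hu i) _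
    rw [h4, ract_inv_ract b k hx, hR']
  choose R' hR' using key
  -- the limit
  have hlim2 : Tendsto (fun i => ract b k (g i)⁻¹ (ract b k x (iv R))) atTop
      (𝓝 (ract b k x (iv R))) := by
    have h1 : ContinuousWithinAt (fun y : Matrix ι ι ℝ => ract b k y⁻¹ (ract b k x (iv R)))
        {y | y.det = 1} 1 := ract_contInv b k (ract b k x (iv R)) 1 Matrix.det_one
    have h2 : Tendsto g atTop (𝓝[{y : Matrix ι ι ℝ | y.det = 1}] 1) :=
      tendsto_nhdsWithin_iff.2 ⟨hlim, Eventually.of_forall hg⟩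
    have h3 := h1.tendsto.comp h2
    have h4 : ract b k (1 : Matrix ι ι ℝ)⁻¹ (ract b k x (iv R)) = ract b k x (iv R) := by
      rw [inv_one, ract_one']
    rw [h4] at h3
    exact h3
  have hlim3 : Tendsto (fun i => iv (R' i)) atTop (𝓝 (iv R)) := by
    have h1 : Continuous (fun v : (Fin k → ι) → ℝ => ract b k x⁻¹ v) := by
      unfold ract
      exact Continuous.matrix_mulVec continuous_const continuous_id
    have h2 := (h1.tendsto (ract b k x (iv R))).comp hlim2
    rw [ract_inv_ract b k hx] at h2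
    refine h2.congr fun i => ?_
    simp only [Function.comp_apply]
    rw [hR' i, ract_inv_ract b k hx]
  filter_upwards [int_tendsto hlim3] with i hi
  have h1 := hR' i
  rw [hi] at h1
  conv_lhs => rw [← h1]
  exact ract_ract_inv b k (hg i) _

theorem vecMul_adj {k : ℕ} (N : Matrix (Fin k) (Fin k) ℝ) (v : Fin k → ℝ) (j : Fin k) :
    (v ᵥ* N.adjugate) j = (N.updateRow j v).det := by
  rw [← Matrix.cramer_transpose_apply, Matrix.cramer_eq_adjugate_mulVec, ← Matrix.adjugate_transpose,
    Matrix.mulVec_transpose]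

theorem plEq : plEqStatement := by
  intro ι _ _ k M M' ⟨i, hi⟩ hpl
  set N := M.submatrix i id with hN
  set N' := M'.submatrix i id with hN'
  have hdet : N'.det = N.det := congrFun hpl i
  have hadj : M * N.adjugate = M' * N'.adjugate := by
    ext a j
    have h1 : ∀ P : Matrix ι (Fin k) ℝ, (P * (P.submatrix i id).adjugate) a j =
        pl P (Function.update i j a) := by
      intro P
      have h2 : (P * (P.submatrix i id).adjugate) a j =
          (P a ᵥ* (P.submatrix i id).adjugate) j := rfl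
      rw [h2, vecMul_adj]
      unfold pl
      congr 1
      ext b c
      rw [Matrix.updateRow_apply]
      by_cases hb : b = j
      · subst hb; simp
      · rw [if_neg hb]
        simp only [Matrix.submatrix_apply, Function.update_of_ne hb, id]
    rw [h1 M, h1 M', hpl]
  refine ⟨N⁻¹ * N', ?_, ?_⟩
  · rw [Matrix.det_mul, Matrix.det_nonsing_inv, hdet]
    simp [hi]
  · have h1 : M' * (N'.adjugate * N') = N.det • M' := by
      rw [Matrix.adjugate_mul, hdet, Matrix.mul_smul, Matrix.mul_one]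
    have h2 : N⁻¹ = (N.det)⁻¹ • N.adjugate := by
      rw [Matrix.inv_def, Ring.inverse_eq_inv']
    rw [h2, Matrix.smul_mul, Matrix.mul_smul, ← Matrix.mul_assoc, hadj, Matrix.mul_assoc, h1,
      smul_smul, inv_mul_cancel₀ hi, one_smul]

/-! ### U-invariant subspaces -/

theorem uB_inl {d : ℕ} (B : Matrix (Fin d) (Fin d) ℝ) (w : Fin d → ℝ) (v : I d → ℝ) (i : Fin d) :
    (uB B w *ᵥ v) (Sum.inl i) = v (Sum.inl i) + v (Sum.inr 0) * w i := by
  simp only [uB, Matrix.mulVec, dotProduct, Fintype.sum_sum_type, Matrix.fromBlocks_apply₁₁,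
    Matrix.fromBlocks_apply₁₂, Matrix.one_apply, Matrix.of_apply, Fin.sum_univ_two]
  simp
  ring

theorem uB_s {d : ℕ} (B : Matrix (Fin d) (Fin d) ℝ) (w : Fin d → ℝ) (v : I d → ℝ) :
    (uB B w *ᵥ v) (Sum.inr 0) = v (Sum.inr 0) := by
  simp only [uB, Matrix.mulVec, dotProduct, Fintype.sum_sum_type, Matrix.fromBlocks_apply₂₁,
    Matrix.fromBlocks_apply₂₂, Matrix.of_apply, Fin.sum_univ_two]
  simp

theorem uB_z {d : ℕ} (B : Matrix (Fin d) (Fin d) ℝ) (w : Fin d → ℝ) (v : I d → ℝ) :
    (uB B w *ᵥ v) (Sum.inr 1) = v (Sum.inr 1) - 2 * ((w ᵥ* B) ⬝ᵥ fun i => v (Sum.inl i))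
      - (w ⬝ᵥ B *ᵥ w) * v (Sum.inr 0) := by
  simp only [uB, Matrix.mulVec, dotProduct, Fintype.sum_sum_type, Matrix.fromBlocks_apply₂₁,
    Matrix.fromBlocks_apply₂₂, Matrix.of_apply, Fin.sum_univ_two]
  simp only [Matrix.cons_val_one, Matrix.cons_val_zero, Matrix.cons_val_fin_one]
  have : ∑ x, -2 * (w ᵥ* B) x * v (Sum.inl x) = -2 * ∑ x, (w ᵥ* B) x * v (Sum.inl x) := by
    rw [Finset.mul_sum]
    exact Finset.sum_congr rfl fun _ _ => by ring
  rw [this]
  simp
  ring

theorem BOK.exists_nonzero {d : ℕ} {B : Matrix (Fin d) (Fin d) ℝ} (h : BOK B) :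
    ∃ w : Fin d → ℝ, w ⬝ᵥ B *ᵥ w ≠ 0 := by
  rcases h.2 with h1 | ⟨hd, h1⟩
  · have hd : 0 < d := by have := h.1; omega
    refine ⟨Pi.single ⟨0, hd⟩ 1, ?_⟩
    rw [h1]
    simp
  · subst hd
    refine ⟨fun _ => 1, ?_⟩
    simp [Matrix.mulVec, dotProduct, Fin.sum_univ_two, h1]

theorem struct : structStatement := by
  intro d B hB k hk0 hk M ⟨i, hi⟩ hinv
  set E : Submodule ℝ (I d → ℝ) := LinearMap.range M.mulVecLin with hE
  have hmem : ∀ v, v ∈ E ↔ ∃ a, M *ᵥ a = v := fun v => by
    rw [hE, LinearMap.mem_range]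
    rfl
  have hu : ∀ w, ∀ v ∈ E, uB B w *ᵥ v ∈ E := by
    intro w v hv
    obtain ⟨a, rfl⟩ := (hmem v).1 hv
    obtain ⟨κ, -, hκ⟩ := hinv w
    rw [Matrix.mulVec_mulVec, hκ, ← Matrix.mulVec_mulVec]
    exact (hmem _).2 ⟨_, rfl⟩
  have hs : ∀ v ∈ E, v (Sum.inr 0) = 0 := by
    intro v hv
    by_contra hs
    -- then `E` is everything
    obtain ⟨w0, hw0⟩ := hB.exists_nonzero
    have hez : ez d ∈ E := by
      have h1 : (uB B w0 *ᵥ v - v) + (uB B (-w0) *ᵥ v - v) =
          (-2 * (w0 ⬝ᵥ B *ᵥ w0) * v (Sum.inr 0)) • ez d := by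
        funext j
        rcases j with j | j
        · simp only [Pi.add_apply, Pi.sub_apply, uB_inl, Pi.smul_apply, ez, Pi.neg_apply,
            smul_eq_mul]
          rw [Pi.single_eq_of_ne (by simp)]
          ring
        · fin_cases j
          · simp only [Pi.add_apply, Pi.sub_apply, Fin.zero_eta, uB_s, Pi.smul_apply, ez,
              smul_eq_mul]
            rw [Pi.single_eq_of_ne (by simp)]
            ring
          · simp only [Pi.add_apply, Pi.sub_apply, Fin.mk_one, uB_z, Pi.smul_apply, ez,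
              smul_eq_mul, Pi.single_eq_same]
            rw [Matrix.neg_vecMul, neg_dotProduct, Matrix.mulVec_neg, dotProduct_neg,
              neg_dotProduct]
            ring
      have h2 : (-2 * (w0 ⬝ᵥ B *ᵥ w0) * v (Sum.inr 0)) • ez d ∈ E := by
        rw [← h1]
        exact E.add_mem (E.sub_mem (hu _ _ hv) hv) (E.sub_mem (hu _ _ hv) hv)
      have h3 : (-2 * (w0 ⬝ᵥ B *ᵥ w0) * v (Sum.inr 0)) ≠ 0 :=
        mul_ne_zero (mul_ne_zero (by norm_num) hw0) hs
      exact (E.smul_mem_iff h3).1 h2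
    have hy : ∀ w : Fin d → ℝ, (Sum.elim w 0 : I d → ℝ) ∈ E := by
      intro w
      set c : ℝ := -(2 * ((w ᵥ* B) ⬝ᵥ fun i => v (Sum.inl i)) + (w ⬝ᵥ B *ᵥ w) * v (Sum.inr 0))
        with hc
      have h1 : uB B w *ᵥ v - v - c • ez d = v (Sum.inr 0) • (Sum.elim w 0 : I d → ℝ) := by
        funext j
        rcases j with j | j
        · simp only [Pi.sub_apply, uB_inl, Pi.smul_apply, ez, smul_eq_mul, Sum.elim_inl]
          rw [Pi.single_eq_of_ne (by simp)]
          ring
        · fin_cases j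
          · simp only [Pi.sub_apply, Fin.zero_eta, uB_s, Pi.smul_apply, ez, smul_eq_mul,
              Sum.elim_inr, Pi.zero_apply]
            rw [Pi.single_eq_of_ne (by simp)]
            ring
          · simp only [Pi.sub_apply, Fin.mk_one, uB_z, Pi.smul_apply, ez, smul_eq_mul,
              Pi.single_eq_same, Sum.elim_inr, Pi.zero_apply, hc]
            ring
      have h2 : v (Sum.inr 0) • (Sum.elim w 0 : I d → ℝ) ∈ E := by
        rw [← h1]
        exact E.sub_mem (E.sub_mem (hu _ _ hv) hv) (E.smul_mem _ hez)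
      exact (E.smul_mem_iff hs).1 h2
    have htop : E = ⊤ := by
      rw [eq_top_iff]
      intro x _
      set r : ℝ := x (Sum.inr 0) / v (Sum.inr 0) with hr
      have h1 : x = r • v + (Sum.elim (fun i => x (Sum.inl i) - r * v (Sum.inl i)) 0 : I d → ℝ) +
          (x (Sum.inr 1) - r * v (Sum.inr 1)) • ez d := by
        funext j
        rcases j with j | j
        · simp only [Pi.add_apply, Pi.smul_apply, ez, smul_eq_mul, Sum.elim_inl]
          rw [Pi.single_eq_of_ne (by simp)]
          ring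
        · fin_cases j
          · simp only [Pi.add_apply, Fin.zero_eta, Pi.smul_apply, ez, smul_eq_mul,
              Sum.elim_inr, Pi.zero_apply]
            rw [Pi.single_eq_of_ne (by simp), hr, div_mul_cancel₀ _ hs]
            ring
          · simp only [Pi.add_apply, Fin.mk_one, Pi.smul_apply, ez, smul_eq_mul,
              Pi.single_eq_same, Sum.elim_inr, Pi.zero_apply]
            ring
      rw [h1]
      exact E.add_mem (E.add_mem (E.smul_mem _ hv) (hy _)) (E.smul_mem _ hez)
    have h1 : Module.finrank ℝ E ≤ k := by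
      have := LinearMap.finrank_range_le M.mulVecLin
      rwa [Module.finrank_fin_fun] at this
    rw [htop, finrank_top, Module.finrank_fintype_fun_eq_card] at h1
    omega
  constructor
  · funext j
    have h1 := hs (M *ᵥ Pi.single j 1) ((hmem _).2 ⟨_, rfl⟩)
    rw [Matrix.mulVec_single_one] at h1
    simp only [Matrix.vecMul, dotProduct, LB, Fintype.sum_sum_type, Fin.sum_univ_two]
    simpa using h1
  · rw [← hmem]
    -- a nonzero vector
    set j0 : Fin k := ⟨0, hk0⟩ with hj0
    set v : I d → ℝ := M *ᵥ Pi.single j0 1 with hv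
    have hvE : v ∈ E := (hmem _).2 ⟨_, rfl⟩
    have hv0 : v ≠ 0 := by
      intro h0
      apply hi
      apply Matrix.det_eq_zero_of_column_eq_zero j0
      intro a
      have h1 := congrFun h0 (i a)
      rw [hv, Matrix.mulVec_single_one] at h1
      exact h1
    by_cases hy : (fun i => v (Sum.inl i)) = (0 : Fin d → ℝ)
    · have h1 : v = v (Sum.inr 1) • ez d := by
        funext j
        rcases j with j | j
        · have h2 := congrFun hy j
          simp only [Pi.zero_apply] at h2
          rw [h2]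
          simp only [Pi.smul_apply, ez, smul_eq_mul]
          rw [Pi.single_eq_of_ne (by simp), mul_zero]
        · fin_cases j
          · have h2 := hs v hvE
            simp only [Fin.zero_eta, Pi.smul_apply, ez, smul_eq_mul]
            rw [h2, Pi.single_eq_of_ne (by simp), mul_zero]
          · simp [ez]
      have h2 : v (Sum.inr 1) ≠ 0 := by
        intro h2
        rw [h2, zero_smul] at h1
        exact hv0 h1
      rw [h1] at hvE
      exact (E.smul_mem_iff h2).1 hvE
    · set y : Fin d → ℝ := fun i => v (Sum.inl i) with hydef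
      have h1 : uB B (y ᵥ* B) *ᵥ v - v = (-2 * (y ⬝ᵥ y)) • ez d := by
        funext j
        rcases j with j | j
        · simp only [Pi.sub_apply, uB_inl, Pi.smul_apply, ez, smul_eq_mul]
          rw [Pi.single_eq_of_ne (by simp), hs v hvE]
          ring
        · fin_cases j
          · simp only [Pi.sub_apply, Fin.zero_eta, uB_s, Pi.smul_apply, ez, smul_eq_mul]
            rw [Pi.single_eq_of_ne (by simp)]
            ring
          · simp only [Pi.sub_apply, Fin.mk_one, uB_z, Pi.smul_apply, ez, smul_eq_mul,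
              Pi.single_eq_same]
            rw [hs v hvE, Matrix.vecMul_vecMul, hB.sq, Matrix.vecMul_one]
            ring
      have h2 : (-2 * (y ⬝ᵥ y)) • ez d ∈ E := by
        rw [← h1]
        exact E.sub_mem (hu _ _ hvE) hvE
      have h3 : (-2 * (y ⬝ᵥ y)) ≠ 0 := by
        apply mul_ne_zero (by norm_num)
        intro h
        exact hy (dotProduct_self_eq_zero.1 h)
      exact (E.smul_mem_iff h3).1 h2

end QL3
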