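import Mathlib
import Pool.Agent.Helper35_QL3.Stmt
import Pool.Agent.Helper9_QL.Asym

/-!
Module polyLim.
-/

set_option autoImplicit false
open Polynomial Filter Topology

namespace QL3

theorem polyLim : polyLimStatement := by
  intro b c hb hc hbc
  have hc0 : c ≠ 0 := by
    rintro rfl
    simp at hc
  refine ⟨QL.H9.ev_ne hc0, QL.asymB b c hc0 ?_ hb hc⟩
  by_contra h
  push Not at h
  exact hbc h

end QL3
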